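import Mathlib
import Pool.Agent.Helper17.Berk.LocDeg

/-!
# Connectedness of discs and directions (helper35, for module B9 of MP_160e9b_an)
-/

open Polynomial Topology

set_option linter.dupNamespace false
set_option linter.unusedSectionVars false

namespace Pool.Agent.Helper35.Berk

open Pool.Agent.Helper17.Berk Pool.Agent.Helper17.Berk.RatMap

universe u

variable {K : Type u} [NontriviallyNormedField K] [IsUltrametricDist K] [IsAlgClosed K]

/-- the value group is dense. -/
theorem exists_norm_between {r s : ℝ} (hr : 0 ≤ r) (hrs : r < s) : ∃ z : K, r < ‖z‖ ∧ ‖z‖ < s := by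
  have hm : 0 ≤ (r + s) / 2 := by linarith
  obtain ⟨z, hz⟩ := exists_pt_near (zeta (0 : K) ((r + s) / 2)) {0}
    (show 0 < (s - r) / 2 by linarith)
  have h := hz 0 (by simp)
  rw [zeta_lin _ _ hm, sub_zero, sub_zero, norm_zero, max_eq_left hm, abs_lt] at h
  exact ⟨z, by linarith [h.1], by linarith [h.2]⟩

theorem isPreconnected_oD (a : K) (r : ℝ) : IsPreconnected (oD a r : Set (P1 K)) := by
  have h : (oD a r : Set (P1 K)) = ⋃ t : Set.Ico (0 : ℝ) r, cD a t.1 := by
    ext p
    simp only [Set.mem_iUnion]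
    constructor
    · rintro ⟨x, rfl, hx⟩
      exact ⟨⟨x (X - C a), x.nonneg _, hx⟩, x, rfl, le_rfl⟩
    · rintro ⟨⟨t, ht⟩, x, rfl, hx⟩
      exact ⟨x, rfl, lt_of_le_of_lt hx ht.2⟩
  rw [h]
  apply isPreconnected_iUnion
  · refine ⟨((pt a : Berk K) : P1 K), ?_⟩
    simp only [Set.mem_iInter]
    rintro ⟨t, ht⟩
    rw [coe_mem_cD, pt_lin]
    simpa using ht.1
  · rintro ⟨t, ht⟩
    exact isPreconnected_cD a ht.1

theorem isPreconnected_compl_cD (a : K) {r : ℝ} (hr : 0 ≤ r) :
    IsPreconnected (cD a r : Set (P1 K))ᶜ := by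
  have h : (cD a r : Set (P1 K))ᶜ = ⋃ z : {z : K // r < ‖z‖}, (oD a ‖z.1‖)ᶜ := by
    ext p
    simp only [Set.mem_iUnion, Set.mem_compl_iff]
    induction p using OnePoint.rec with
    | infty =>
      obtain ⟨z, hz, -⟩ := exists_norm_between (K := K) hr (show r < r + 1 by linarith)
      simp only [infty_notMem_cD, infty_notMem_oD, not_false_eq_true, true_iff]
      exact ⟨⟨z, hz⟩, trivial⟩
    | coe x =>
      simp only [coe_mem_cD, coe_mem_oD, not_le, not_lt]
      constructor
      · intro hx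
        obtain ⟨z, hz, hz'⟩ := exists_norm_between (K := K) hr hx
        exact ⟨⟨z, hz⟩, hz'.le⟩
      · rintro ⟨⟨z, hz⟩, hz'⟩
        exact lt_of_lt_of_le hz hz'
  rw [h]
  apply isPreconnected_iUnion
  · refine ⟨OnePoint.infty, ?_⟩
    simp only [Set.mem_iInter, Set.mem_compl_iff]
    rintro ⟨t, ht⟩
    exact infty_notMem_oD
  · rintro ⟨z, hz⟩
    refine isPreconnected_compl_oD a ?_
    rintro rfl
    rw [norm_zero] at hz
    linarith

theorem infinite_cD (a : K) {r : ℝ} (hr : 0 < r) : (cD a r : Set (P1 K)).Infinite := by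
  refine Set.infinite_of_injective_forall_mem
    (f := fun n : ℕ => ((zeta a (r / (n + 1)) : Berk K) : P1 K)) ?_ ?_
  · intro m n h
    have h1 := OnePoint.coe_injective h
    have hm : 0 ≤ r / ((m : ℝ) + 1) := by positivity
    have hn : 0 ≤ r / ((n : ℝ) + 1) := by positivity
    have h2 := ((zeta_eq_zeta_iff hm hn).1 h1).1
    have h3 : (m : ℝ) + 1 = (n : ℝ) + 1 := by
      field_simp at h2
      linarith
    exact_mod_cast (add_right_cancel h3)
  · intro n
    have hn : 0 ≤ r / ((n : ℝ) + 1) := by positivity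
    rw [coe_mem_cD, zeta_lin _ _ hn, sub_self, norm_zero, max_eq_left hn]
    apply div_le_self hr.le
    linarith [(Nat.cast_nonneg n : (0 : ℝ) ≤ n)]

theorem infinite_compl_oD (a : K) {r : ℝ} (hr : 0 < r) : (oD a r : Set (P1 K))ᶜ.Infinite := by
  refine Set.infinite_of_injective_forall_mem
    (f := fun n : ℕ => ((zeta a (r + n) : Berk K) : P1 K)) ?_ ?_
  · intro m n h
    have h1 := OnePoint.coe_injective h
    have hm : 0 ≤ r + (m : ℝ) := by positivity
    have hn : 0 ≤ r + (n : ℝ) := by positivity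
    have h2 := ((zeta_eq_zeta_iff hm hn).1 h1).1
    exact_mod_cast (add_left_cancel h2)
  · intro n
    have hn : 0 ≤ r + (n : ℝ) := by positivity
    rw [Set.mem_compl_iff, coe_mem_oD, zeta_lin _ _ hn, sub_self, norm_zero, max_eq_left hn]
    push Not
    linarith [(Nat.cast_nonneg n : (0 : ℝ) ≤ n)]

/-- a preconnected set avoiding `ζ(c, s)` and meeting the outward direction is contained in it. -/
theorem subset_compl_cD_of_preconnected {S : Set (P1 K)} (hS : IsPreconnected S) {c : K} {s : ℝ}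
    (hs : 0 < s) (hb : ((zeta c s : Berk K) : P1 K) ∉ S) (hne : (S ∩ (cD c s)ᶜ).Nonempty) :
    S ⊆ (cD c s)ᶜ := by
  have hV : IsOpen (⋃ e : {e : K // ‖e - c‖ ≤ s}, (oD e.1 s : Set (P1 K))) :=
    isOpen_iUnion fun e => isOpen_oD _ _
  refine hS.subset_left_of_subset_union (isClosed_cD c s).isOpen_compl hV ?_ ?_ hne
  · rw [Set.disjoint_left]
    rintro p hp hp'
    rw [Set.mem_iUnion] at hp'
    obtain ⟨⟨e, he⟩, hp'⟩ := hp'
    apply hp
    rw [← cD_eq_cD (a := e) (b := c) he]
    exact oD_subset_cD _ _ hp'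
  · intro p hp
    by_cases h : p ∈ (cD c s : Set (P1 K))
    · right
      obtain ⟨x, rfl, hx⟩ := h
      obtain ⟨e, he, he'⟩ := x.exists_dir hs hx (by rintro rfl; exact hb hp)
      rw [Set.mem_iUnion]
      exact ⟨⟨e, he⟩, x, rfl, he'⟩
    · exact Or.inl h

/-- a preconnected set avoiding `ζ(c, s)` and meeting the open disc `(c, s)` is contained in it. -/
theorem subset_oD_of_preconnected {S : Set (P1 K)} (hS : IsPreconnected S) {c : K} {s : ℝ}
    (hs : 0 < s) (hb : ((zeta c s : Berk K) : P1 K) ∉ S) (hne : (S ∩ (oD c s)).Nonempty) :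
    S ⊆ oD c s := by
  have hV : IsOpen ((cD c s : Set (P1 K))ᶜ ∪
      ⋃ e : {e : K // ‖e - c‖ = s}, (oD e.1 s : Set (P1 K))) :=
    (isClosed_cD c s).isOpen_compl.union (isOpen_iUnion fun e => isOpen_oD _ _)
  refine hS.subset_left_of_subset_union (isOpen_oD c s) hV ?_ ?_ hne
  · rw [Set.disjoint_left]
    rintro p hp (hp' | hp')
    · exact hp' (oD_subset_cD _ _ hp)
    · rw [Set.mem_iUnion] at hp'
      obtain ⟨⟨e, he⟩, hp'⟩ := hp'
      exact Set.disjoint_left.1 (oD_disjoint (a := c) (b := e) (by rw [norm_sub_rev, he])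
        (by rw [norm_sub_rev, he])) hp hp'
  · intro p hp
    by_cases h : p ∈ (cD c s : Set (P1 K))
    · obtain ⟨x, rfl, hx⟩ := h
      obtain ⟨e, he, he'⟩ := x.exists_dir hs hx (by rintro rfl; exact hb hp)
      rcases he.lt_or_eq with he | he
      · left
        rw [← oD_eq_oD he]
        exact ⟨x, rfl, he'⟩
      · right; right
        rw [Set.mem_iUnion]
        exact ⟨⟨e, he⟩, x, rfl, he'⟩
    · exact Or.inr (Or.inl h)

end Pool.Agent.Helper35.Berk
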