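import Mathlib
import Pool.Agent.Helper17.Berk.LocDeg

/-!
# Moebius transformations on the Berkovich line (helper35, for module B9 of MP_160e9b_an)
-/

open Polynomial Topology

set_option linter.dupNamespace false
set_option linter.unusedSectionVars false

namespace Pool.Agent.Helper35.Berk

open Pool.Agent.Helper17.Berk Pool.Agent.Helper17.Berk.RatMap

universe u

variable {K : Type u} [NontriviallyNormedField K] [IsUltrametricDist K] [IsAlgClosed K]

omit [IsAlgClosed K] in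
theorem norm_sub_le_max' (x y : K) : ‖x - y‖ ≤ max ‖x‖ ‖y‖ := by
  have := IsUltrametricDist.norm_add_le_max x (-y)
  rwa [norm_neg, ← sub_eq_add_neg] at this

omit [IsUltrametricDist K] [IsAlgClosed K] in
theorem actK_coe_of_ne (f : RatMap K) {a : K} (h : f.Q.eval a ≠ 0) :
    f.actK (a : OnePoint K) = ((f.P.eval a / f.Q.eval a : K) : OnePoint K) := if_neg h

omit [IsUltrametricDist K] [IsAlgClosed K] in
theorem actK_coe_of_eq (f : RatMap K) {a : K} (h : f.Q.eval a = 0) :
    f.actK (a : OnePoint K) = OnePoint.infty := if_pos h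

omit [IsUltrametricDist K] [IsAlgClosed K] in
theorem actK_infty_of_ne (f : RatMap K) (h : f.Q.coeff f.deg ≠ 0) :
    f.actK OnePoint.infty = ((f.P.coeff f.deg / f.Q.coeff f.deg : K) : OnePoint K) := if_neg h

omit [IsUltrametricDist K] [IsAlgClosed K] in
theorem actK_infty_of_eq (f : RatMap K) (h : f.Q.coeff f.deg = 0) :
    f.actK OnePoint.infty = OnePoint.infty := if_pos h

theorem act_surjective_aux (f : RatMap K) (hd : 1 ≤ f.deg) : Function.Surjective f.act := by
  have h1 : IsClosed (Set.range f.act) := (isCompact_range f.continuous_act).isClosed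
  have h2 : Set.range (emb (K := K)) ⊆ Set.range f.act := by
    rintro _ ⟨w, rfl⟩
    have h3 : 0 < (f.fib w).card := by rw [f.card_fib]; omega
    obtain ⟨z, hz⟩ := Multiset.card_pos_iff_exists_mem.1 h3
    exact ⟨emb z, by rw [f.act_emb, (f.mem_fib hd z w).1 hz]⟩
  have h3 := (dense_range_emb (K := K)).mono h2
  intro y
  have := h1.closure_eq ▸ h3 y
  exact this

/-- Moebius transformations: invertible rational maps. -/
structure IsMoebius' (M M' : RatMap K) : Prop where
  left : ∀ x, M'.act (M.act x) = x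
  right : ∀ x, M.act (M'.act x) = x
  deg : M.deg = 1
  deg' : M'.deg = 1

theorem eq_id_of_actK (M M' : RatMap K) (h : ∀ z, M'.actK (M.actK z) = z) (x : P1 K) :
    M'.act (M.act x) = x := by
  have h1 : (fun x => M'.act (M.act x)) = (fun x => x) := by
    refine (M'.continuous_act.comp M.continuous_act).ext_on (dense_range_emb (K := K))
      continuous_id ?_
    rintro _ ⟨z, rfl⟩
    change M'.act (M.act (emb z)) = emb z
    rw [M.act_emb, M'.act_emb, h]
  exact congrFun h1 x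

theorem IsMoebius'.of_actK {M M' : RatMap K} (h : ∀ z, M'.actK (M.actK z) = z)
    (h' : ∀ z, M.actK (M'.actK z) = z) (hd : M.deg = 1) (hd' : M'.deg = 1) :
    IsMoebius' M M' :=
  ⟨eq_id_of_actK M M' h, eq_id_of_actK M' M h', hd, hd'⟩

theorem IsMoebius'.comp {M M' N N' : RatMap K} (h : IsMoebius' M M') (h' : IsMoebius' N N') :
    IsMoebius' (M.comp N) (N'.comp M') := by
  refine ⟨fun x => ?_, fun x => ?_, ?_, ?_⟩
  · rw [act_comp, act_comp, h.left, h'.left]
  · rw [act_comp, act_comp, h'.right, h.right]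
  · rw [deg_comp, h.deg, h'.deg]
  · rw [deg_comp, h.deg', h'.deg']

/-- affine maps. -/
noncomputable def aff (α β : K) : RatMap K where
  P := C α * X + C β
  Q := 1
  cop := isCoprime_one_right

omit [IsUltrametricDist K] [IsAlgClosed K] in
theorem aff_P (α β : K) : (aff α β).P = C α * X + C β := rfl
omit [IsUltrametricDist K] [IsAlgClosed K] in
theorem aff_Q (α β : K) : (aff α β).Q = 1 := rfl

omit [IsUltrametricDist K] [IsAlgClosed K] in
theorem aff_deg {α : K} (hα : α ≠ 0) (β : K) : (aff α β).deg = 1 := by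
  rw [RatMap.deg, aff_P, aff_Q, natDegree_linear hα, natDegree_one]
  rfl

theorem aff_actK_coe {α : K} (β z : K) :
    (aff α β).actK (z : OnePoint K) = ((α * z + β : K) : OnePoint K) := by
  rw [actK_coe_of_ne _ (by rw [aff_Q, eval_one]; exact one_ne_zero), aff_Q, aff_P]
  simp

theorem aff_actK_infty {α : K} (hα : α ≠ 0) (β : K) :
    (aff α β).actK OnePoint.infty = OnePoint.infty := by
  apply actK_infty_of_eq
  rw [aff_deg hα, aff_Q, coeff_one]
  simp

theorem aff_moebius {α : K} (hα : α ≠ 0) (β : K) :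
    IsMoebius' (aff α β) (aff α⁻¹ (-β / α)) := by
  refine IsMoebius'.of_actK ?_ ?_ (aff_deg hα β) (aff_deg (inv_ne_zero hα) _)
  · intro z
    induction z using OnePoint.rec with
    | infty => rw [aff_actK_infty hα, aff_actK_infty (inv_ne_zero hα)]
    | coe z =>
      rw [aff_actK_coe, aff_actK_coe]
      congr 1
      field_simp
      ring
  · intro z
    induction z using OnePoint.rec with
    | infty => rw [aff_actK_infty (inv_ne_zero hα), aff_actK_infty hα]
    | coe z =>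
      rw [aff_actK_coe, aff_actK_coe]
      congr 1
      field_simp
      ring

/-- inversion. -/
noncomputable def rinv (K : Type u) [NontriviallyNormedField K] : RatMap K where
  P := 1
  Q := X
  cop := isCoprime_one_left

omit [IsUltrametricDist K] [IsAlgClosed K] in
theorem rinv_P : (rinv K).P = 1 := rfl
omit [IsUltrametricDist K] [IsAlgClosed K] in
theorem rinv_Q : (rinv K).Q = X := rfl

omit [IsUltrametricDist K] [IsAlgClosed K] in
theorem rinv_deg : (rinv K).deg = 1 := by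
  rw [RatMap.deg, rinv_P, rinv_Q, natDegree_X, natDegree_one]
  rfl

theorem rinv_actK_coe {z : K} (hz : z ≠ 0) :
    (rinv K).actK (z : OnePoint K) = ((z⁻¹ : K) : OnePoint K) := by
  rw [actK_coe_of_ne _ (by rw [rinv_Q, eval_X]; exact hz), rinv_Q, rinv_P]
  simp

theorem rinv_actK_zero :
    (rinv K).actK ((0 : K) : OnePoint K) = OnePoint.infty := by
  apply actK_coe_of_eq
  rw [rinv_Q, eval_X]

theorem rinv_actK_infty :
    (rinv K).actK OnePoint.infty = ((0 : K) : OnePoint K) := by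
  rw [actK_infty_of_ne _ (by rw [rinv_deg, rinv_Q]; simp), rinv_deg, rinv_Q, rinv_P]
  simp [coeff_one]

theorem rinv_moebius : IsMoebius' (rinv K) (rinv K) := by
  have h : ∀ z : OnePoint K, (rinv K).actK ((rinv K).actK z) = z := by
    intro z
    induction z using OnePoint.rec with
    | infty => rw [rinv_actK_infty, rinv_actK_zero]
    | coe z =>
      by_cases hz : z = 0
      · subst hz
        rw [rinv_actK_zero, rinv_actK_infty]
      · rw [rinv_actK_coe hz, rinv_actK_coe (inv_ne_zero hz), inv_inv]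
  exact IsMoebius'.of_actK h h rinv_deg rinv_deg

theorem aff_act_zeta {α : K} (hα : α ≠ 0) (β a : K) {r : ℝ} (hr : 0 ≤ r) :
    (aff α β).act (zeta a r : Berk K) = (zeta (α * a + β) (‖α‖ * r) : Berk K) := by
  rw [act_eq_iff _ (by rw [aff_deg hα])]
  have hα' : 0 < ‖α‖ := norm_pos_iff.2 hα
  refine ⟨by rw [aff_Q, Berk.map_one]; exact one_ne_zero, fun c => ?_⟩
  have e : (aff α β).P - C c * (aff α β).Q = C α * (X - C ((c - β) / α)) := by
    rw [aff_P, aff_Q, mul_sub, ← C_mul, mul_div_cancel₀ _ hα, C_sub]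
    ring
  rw [e, aff_Q, Berk.map_mul, Berk.map_C, Berk.map_one, mul_one, zeta_lin _ _ hr,
    zeta_lin _ _ (by positivity), mul_max_of_nonneg _ _ hα'.le, ← norm_mul]
  congr 2
  field_simp
  ring

theorem rinv_act_zeta_of_le {a : K} {r : ℝ} (hr : 0 < r) (ha : ‖a‖ ≤ r) :
    (rinv K).act (zeta a r : Berk K) = (zeta 0 r⁻¹ : Berk K) := by
  rw [act_eq_iff _ (by rw [rinv_deg])]
  have hX : (zeta a r : Berk K) X = r := by
    have := zeta_lin a 0 hr.le
    rw [C_0, sub_zero, zero_sub, norm_neg, max_eq_left ha] at this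
    exact this
  refine ⟨by rw [rinv_Q, hX]; exact hr.ne', fun c => ?_⟩
  rw [rinv_P, rinv_Q, zeta_lin _ _ (by positivity), sub_zero, hX]
  by_cases hc : c = 0
  · subst hc
    rw [C_0, zero_mul, sub_zero, Berk.map_one, norm_zero, max_eq_left (by positivity),
      inv_mul_cancel₀ hr.ne']
  · have hc' : 0 < ‖c‖ := norm_pos_iff.2 hc
    have e : (1 - C c * X : K[X]) = C (-c) * (X - C c⁻¹) := by
      rw [mul_sub, ← C_mul, neg_mul, mul_inv_cancel₀ hc, C_neg, C_neg, C_1]
      ring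
    rw [e, Berk.map_mul, Berk.map_C, norm_neg, zeta_lin _ _ hr.le, mul_max_of_nonneg _ _ hc'.le,
      max_mul_of_nonneg _ _ hr.le, inv_mul_cancel₀ hr.ne']
    have h1 : ‖c‖ * ‖c⁻¹ - a‖ = ‖1 - c * a‖ := by
      rw [← norm_mul, mul_sub, mul_inv_cancel₀ hc]
    rw [h1]
    apply le_antisymm
    · refine max_le (le_max_right _ _) ?_
      refine (norm_sub_le_max' _ _).trans ?_
      rw [norm_one, norm_mul]
      exact max_le_max le_rfl (by gcongr)
    · refine max_le ?_ (le_max_left _ _)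
      by_contra hlt
      push Not at hlt
      rw [max_lt_iff] at hlt
      have h2 : ‖(1 : K)‖ ≤ max ‖1 - c * a‖ ‖c * a‖ := by
        have := IsUltrametricDist.norm_add_le_max (1 - c * a) (c * a)
        rwa [sub_add_cancel] at this
      rw [norm_one] at h2
      rcases le_max_iff.1 h2 with h3 | h3
      · linarith [hlt.2]
      · rw [norm_mul] at h3
        have : ‖c‖ * ‖a‖ ≤ ‖c‖ * r := by gcongr
        linarith [hlt.1]

theorem rinv_act_zeta_of_gt {a : K} {r : ℝ} (hr : 0 ≤ r) (ha : r < ‖a‖) :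
    (rinv K).act (zeta a r : Berk K) = (zeta a⁻¹ (r / ‖a‖ ^ 2) : Berk K) := by
  rw [act_eq_iff _ (by rw [rinv_deg])]
  have ha0 : a ≠ 0 := by
    rintro rfl
    rw [norm_zero] at ha
    linarith
  have ha' : 0 < ‖a‖ := norm_pos_iff.2 ha0
  have hX : (zeta a r : Berk K) X = ‖a‖ := by
    have := zeta_lin a 0 hr
    rw [C_0, sub_zero, zero_sub, norm_neg, max_eq_right ha.le] at this
    exact this
  refine ⟨by rw [rinv_Q, hX]; exact ha'.ne', fun c => ?_⟩
  rw [rinv_P, rinv_Q, zeta_lin _ _ (by positivity), hX]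
  by_cases hc : c = 0
  · subst hc
    rw [C_0, zero_mul, sub_zero, Berk.map_one, zero_sub, norm_neg, norm_inv, max_eq_right,
      inv_mul_cancel₀ ha'.ne']
    rw [div_le_iff₀ (by positivity)]
    field_simp
    exact ha.le
  · have hc' : 0 < ‖c‖ := norm_pos_iff.2 hc
    have e : (1 - C c * X : K[X]) = C (-c) * (X - C c⁻¹) := by
      rw [mul_sub, ← C_mul, neg_mul, mul_inv_cancel₀ hc, C_neg, C_neg, C_1]
      ring
    rw [e, Berk.map_mul, Berk.map_C, norm_neg, zeta_lin _ _ hr, mul_max_of_nonneg _ _ hc'.le,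
      max_mul_of_nonneg _ _ ha'.le]
    have h1 : ‖c‖ * ‖c⁻¹ - a‖ = ‖c - a⁻¹‖ * ‖a‖ := by
      rw [← norm_mul, mul_sub, mul_inv_cancel₀ hc, ← norm_mul, sub_mul, inv_mul_cancel₀ ha0,
        norm_sub_rev]
    rw [h1]
    -- `‖c‖ r` against `r / ‖a‖`
    have h2 : ‖c‖ ≤ max ‖c - a⁻¹‖ ‖a‖⁻¹ := by
      have := IsUltrametricDist.norm_add_le_max (c - a⁻¹) a⁻¹
      rwa [sub_add_cancel, norm_inv] at this
    have h3 : ‖a‖⁻¹ ≤ max ‖c - a⁻¹‖ ‖c‖ := by
      have := norm_sub_le_max' c (c - a⁻¹)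
      rwa [sub_sub_cancel, norm_inv, max_comm] at this
    have h4 : r / ‖a‖ ^ 2 * ‖a‖ = r * ‖a‖⁻¹ := by field_simp
    rw [h4]
    apply le_antisymm
    · refine max_le ?_ (le_max_right _ _)
      rcases le_max_iff.1 h2 with h5 | h5
      · refine le_trans ?_ (le_max_right _ _)
        gcongr
      · refine le_trans ?_ (le_max_left _ _)
        rw [mul_comm]
        gcongr
    · refine max_le ?_ (le_max_right _ _)
      rcases le_max_iff.1 h3 with h5 | h5
      · refine le_trans ?_ (le_max_right _ _)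
        rw [mul_comm]
        gcongr
      · refine le_trans ?_ (le_max_left _ _)
        rw [mul_comm]
        gcongr

/-- normalisation of two type II points. -/
theorem exists_moebius' (a₀ a₁ π₀ π₁ : K) (h₀ : π₀ ≠ 0) (h₁ : π₁ ≠ 0)
    (hne : zeta a₀ ‖π₀‖ ≠ zeta a₁ ‖π₁‖) :
    ∃ M M' : RatMap K, IsMoebius' M M' ∧ ∃ u₀ u₁ : K, u₀ ≠ 0 ∧ u₁ ≠ 0 ∧ ‖u₀‖ < ‖u₁‖ ∧
      M.act (zeta a₀ ‖π₀‖ : Berk K) = (zeta 0 ‖u₀‖ : Berk K) ∧
      M.act (zeta a₁ ‖π₁‖ : Berk K) = (zeta 0 ‖u₁‖ : Berk K) := by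
  have p₀ : 0 < ‖π₀‖ := norm_pos_iff.2 h₀
  have p₁ : 0 < ‖π₁‖ := norm_pos_iff.2 h₁
  by_cases hA : ‖a₀ - a₁‖ ≤ ‖π₁‖ ∧ ‖π₀‖ ≤ ‖π₁‖
  · have hlt : ‖π₀‖ < ‖π₁‖ := by
      refine lt_of_le_of_ne hA.2 fun h => hne ?_
      rw [zeta_eq_zeta_iff p₀.le p₁.le]
      exact ⟨h, by rw [h]; exact hA.1⟩
    refine ⟨_, _, aff_moebius (one_ne_zero (α := K)) (-a₀), π₀, π₁, h₀, h₁, hlt, ?_, ?_⟩
    · rw [aff_act_zeta one_ne_zero _ _ p₀.le, norm_one, one_mul, one_mul, add_neg_cancel]
    · rw [aff_act_zeta one_ne_zero _ _ p₁.le, norm_one, one_mul, one_mul]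
      congr 1
      rw [zeta_eq_zeta_iff p₁.le p₁.le]
      refine ⟨rfl, ?_⟩
      rw [sub_zero, ← sub_eq_add_neg, norm_sub_rev]
      exact hA.1
  by_cases hB : ‖a₀ - a₁‖ ≤ ‖π₀‖ ∧ ‖π₁‖ ≤ ‖π₀‖
  · have hlt : ‖π₁‖ < ‖π₀‖ := by
      refine lt_of_le_of_ne hB.2 fun h => hne ?_
      rw [zeta_eq_zeta_iff p₀.le p₁.le]
      exact ⟨h.symm, hB.1⟩
    refine ⟨_, _, (rinv_moebius (K := K)).comp (aff_moebius (one_ne_zero (α := K)) (-a₁)),
      π₀⁻¹, π₁⁻¹, inv_ne_zero h₀, inv_ne_zero h₁, ?_, ?_, ?_⟩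
    · rw [norm_inv, norm_inv]
      exact inv_strictAnti₀ p₁ hlt
    · rw [act_comp, aff_act_zeta one_ne_zero _ _ p₀.le, norm_one, one_mul, one_mul,
        rinv_act_zeta_of_le p₀ (by rw [← sub_eq_add_neg]; exact hB.1), norm_inv]
    · rw [act_comp, aff_act_zeta one_ne_zero _ _ p₁.le, norm_one, one_mul, one_mul,
        rinv_act_zeta_of_le p₁ (by rw [add_neg_cancel, norm_zero]; exact p₁.le), norm_inv]
  · have hδ0 : ‖π₀‖ < ‖a₀ - a₁‖ := by
      by_contra hle
      push Not at hle hA hB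
      have := hB hle
      have h3 : ¬ ‖a₀ - a₁‖ ≤ ‖π₁‖ := fun h => by
        have := hA h
        linarith
      linarith
    have hδ1 : ‖π₁‖ < ‖a₀ - a₁‖ := by
      by_contra hle
      push Not at hle hA hB
      have := hA hle
      linarith
    have hne' : a₁ - a₀ ≠ 0 := by
      intro h
      rw [norm_sub_rev, h, norm_zero] at hδ0
      linarith
    have hne'' : a₀ - a₁ ≠ 0 := by
      intro h
      rw [h, norm_zero] at hδ0
      linarith
    have hδ : 0 < ‖a₀ - a₁‖ := norm_pos_iff.2 hne''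
    refine ⟨_, _, (aff_moebius hne' 1).comp ((rinv_moebius (K := K)).comp
      (aff_moebius (one_ne_zero (α := K)) (-a₁))), π₀ / (a₀ - a₁), (a₀ - a₁) / π₁,
      div_ne_zero h₀ hne'', div_ne_zero hne'' h₁, ?_, ?_, ?_⟩
    · rw [norm_div, norm_div]
      have h1 : ‖π₀‖ / ‖a₀ - a₁‖ < 1 := (div_lt_one hδ).2 hδ0
      have h2 : 1 < ‖a₀ - a₁‖ / ‖π₁‖ := (one_lt_div p₁).2 hδ1
      linarith
    · rw [act_comp, act_comp, aff_act_zeta one_ne_zero _ _ p₀.le, norm_one, one_mul, one_mul,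
        ← sub_eq_add_neg, rinv_act_zeta_of_gt p₀.le hδ0, aff_act_zeta hne' _ _ (by positivity)]
      congr 2
      · have : a₁ - a₀ = - (a₀ - a₁) := by ring
        rw [this, neg_mul, mul_inv_cancel₀ hne'', neg_add_cancel]
      · rw [norm_sub_rev a₁ a₀, norm_div]
        field_simp
    · rw [act_comp, act_comp, aff_act_zeta one_ne_zero _ _ p₁.le, norm_one, one_mul, one_mul,
        add_neg_cancel, rinv_act_zeta_of_le p₁ (by rw [norm_zero]; exact p₁.le),
        aff_act_zeta hne' _ _ (by positivity), mul_zero, zero_add, norm_div, norm_sub_rev a₁ a₀,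
        ← div_eq_mul_inv]
      congr 1
      rw [zeta_eq_zeta_iff (by positivity) (by positivity)]
      refine ⟨rfl, ?_⟩
      rw [sub_zero, norm_one]
      exact ((one_lt_div p₁).2 hδ1).le

end Pool.Agent.Helper35.Berk
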